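import Pool.Agent.Lib_helper47.ExpFour

/-!
A product of finite groups of exponent `8` in which `x ^ 4 = 1` has measure close to one although no
coset of an open subgroup consists of such elements.
-/

set_option autoImplicit false
set_option linter.unusedVariables false

namespace Pool.Agent.INS.Four

open MeasureTheory Pool.Agent.ExpFour

/-- the acting elementary abelian groups -/
abbrev HH (k r : ℕ) : Type := Multiplicative (Fin (k + r) → ZMod 2)

theorem HH_sq (k r : ℕ) (m : HH k r) : m * m = 1 := by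
  have : ∀ a : Fin (k + r) → ZMod 2, a + a = 0 := by
    intro a; funext i
    have : ∀ b : ZMod 2, b + b = 0 := by decide
    exact this _
  exact this _

/-- the finite groups -/
abbrev Gf (k r : ℕ) : Type := GG (HH k r)

instance topGf (k r : ℕ) : TopologicalSpace (Gf k r) := ⊥
instance discGf (k r : ℕ) : DiscreteTopology (Gf k r) := ⟨rfl⟩
instance tgGf (k r : ℕ) : IsTopologicalGroup (Gf k r) where
  continuous_mul := continuous_of_discreteTopology
  continuous_inv := continuous_of_discreteTopology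

/-- the profinite group -/
abbrev GP (k : ℕ) : Type := ∀ r : ℕ, Gf k r

/-- projection to the acting group -/
noncomputable def rho (k r : ℕ) : GP k →* HH k r :=
  (RegularWreathProduct.rightHom.comp (GG (HH k r)).subtype).comp (Pi.evalMonoidHom _ r)

theorem rho_apply (k r : ℕ) (x : GP k) :
    rho k r x = (x r : RegularWreathProduct (KK (HH k r)) (HH k r)).right := rfl

theorem rho_surj (k r : ℕ) : Function.Surjective (rho k r) := by
  classical
  intro m
  have hmem : (⟨fun _ => 1, m⟩ : RegularWreathProduct (KK (HH k r)) (HH k r)) ∈ GG (HH k r) := by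
    refine ⟨⟨0, fun x h => rfl⟩, ⟨0, fun x => ?_⟩⟩
    show par 0 = 0
    exact map_zero _
  refine ⟨Function.update 1 r ⟨_, hmem⟩, ?_⟩
  rw [rho_apply, Function.update_self]

theorem isOpen_ker (k r : ℕ) : IsOpen ((rho k r).ker : Set (GP k)) := by
  have : ((rho k r).ker : Set (GP k)) = (fun x : GP k => x r) ⁻¹'
      {y : Gf k r | (y : RegularWreathProduct (KK (HH k r)) (HH k r)).right = 1} := by
    ext x
    simp only [SetLike.mem_coe, MonoidHom.mem_ker, Set.mem_preimage]
    rfl
  rw [this]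
  exact (isOpen_discrete _).preimage (continuous_apply r)

theorem ker_bound (k : ℕ) [MeasurableSpace (GP k)] [BorelSpace (GP k)] (μ : Measure (GP k))
    [μ.IsMulLeftInvariant] (r : ℕ) :
    μ ((rho k r).ker : Set (GP k)) * (2 ^ (k + r) : ENNReal) ≤ μ Set.univ := by
  classical
  choose s hs using rho_surj k r
  have hmeas : MeasurableSet ((rho k r).ker : Set (GP k)) := (isOpen_ker k r).measurableSet
  have hset : ∀ m : HH k r, {x : GP k | rho k r x = m} =
      (fun x => (s m)⁻¹ * x) ⁻¹' ((rho k r).ker : Set (GP k)) := by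
    intro m
    ext x
    simp only [Set.mem_preimage, SetLike.mem_coe, MonoidHom.mem_ker, map_mul, map_inv, hs]
    constructor
    · intro h
      rw [show rho k r x = m from h, inv_mul_cancel]
    · intro h
      exact (inv_mul_eq_one.mp h).symm
  have hval : ∀ m : HH k r, μ {x : GP k | rho k r x = m} = μ ((rho k r).ker : Set (GP k)) := by
    intro m
    rw [hset, measure_preimage_mul]
  have hms : ∀ m : HH k r, MeasurableSet {x : GP k | rho k r x = m} := by
    intro m
    rw [hset]
    exact (measurable_const_mul _) hmeas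
  have hsum : ∑ m : HH k r, μ {x : GP k | rho k r x = m} ≤ μ Set.univ := by
    rw [← measure_biUnion_finset]
    · exact measure_mono (Set.subset_univ _)
    · intro a _ b _ hab
      rw [Function.onFun, Set.disjoint_left]
      intro x hx hx'
      exact hab ((show rho k r x = a from hx).symm.trans hx')
    · intro m _
      exact hms m
  have hcard : Fintype.card (HH k r) = 2 ^ (k + r) := by
    rw [Fintype.card_multiplicative, Fintype.card_fun, ZMod.card, Fintype.card_fin]
  rw [Finset.sum_congr rfl (fun m _ => hval m), Finset.sum_const, Finset.card_univ, hcard,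
    nsmul_eq_mul, mul_comm] at hsum
  push_cast at hsum
  exact hsum

theorem pow_four_of_ne (k r : ℕ) (y : Gf k r)
    (h : (y : RegularWreathProduct (KK (HH k r)) (HH k r)).right ≠ 1) : y ^ 4 = 1 := by
  apply Subtype.ext
  rw [Subgroup.coe_pow]
  exact GG_pow_four _ y.2 (HH_sq k r _) h

/-- the bottom group has exponent eight -/
theorem KK_pow_eight {H : Type} [Fintype H] (a : KK H) : a ^ 8 = 1 := by
  have e : a ^ 8 = ((a * a) * (a * a)) * ((a * a) * (a * a)) := by
    simp only [pow_succ, pow_zero, one_mul]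
    group
  rw [e]
  have h2 : ∀ b : KK H, (b * b).S = 0 := fun b => by
    rw [KK.mul_S]; exact add_self_zero _
  have h3 : ∀ b : KK H, b.S = 0 → (b * b).j = 2 * b.j := fun b hb => by
    rw [KK.mul_j, hb, phi_zero_left]; ring
  ext1
  · rw [h2, KK.one_S]
  · rw [h3 _ (h2 _), h3 _ (h2 _), KK.one_j]
    have : ∀ z : ZMod 4, 2 * (2 * z) = 0 := by decide
    exact this _

theorem Gf_pow_eight (k r : ℕ) (y : Gf k r) : y ^ 8 = 1 := by
  by_cases h : (y : RegularWreathProduct (KK (HH k r)) (HH k r)).right = 1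
  · apply Subtype.ext
    rw [Subgroup.coe_pow]
    have hpow : ∀ n : ℕ, ((y : RegularWreathProduct (KK (HH k r)) (HH k r)) ^ n).right = 1 ∧
        ∀ x, ((y : RegularWreathProduct (KK (HH k r)) (HH k r)) ^ n).left x =
          ((y : RegularWreathProduct (KK (HH k r)) (HH k r)).left x) ^ n := by
      intro n
      induction n with
      | zero => exact ⟨rfl, fun x => rfl⟩
      | succ n ih =>
        refine ⟨?_, fun x => ?_⟩
        · rw [pow_succ, RegularWreathProduct.mul_right, ih.1, h, one_mul]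
        · rw [pow_succ, RegularWreathProduct.mul_left, Pi.mul_apply, ih.1, ih.2, inv_one, one_mul,
            pow_succ]
    apply RegularWreathProduct.ext
    · funext x
      rw [(hpow 8).2, KK_pow_eight]
      rfl
    · rw [(hpow 8).1]
      rfl
  · rw [show 8 = 4 * 2 from rfl, pow_mul, pow_four_of_ne k r y h, one_pow]

theorem GP_pow_eight (k : ℕ) (x : GP k) : x ^ 8 = 1 := by
  funext r
  exact Gf_pow_eight k r (x r)

/-- the measure of `x ^ 4 = 1` -/
theorem measure_ge (k : ℕ) [MeasurableSpace (GP (k + 1))] [BorelSpace (GP (k + 1))]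
    (μ : Measure (GP (k + 1))) [μ.IsMulLeftInvariant] [IsProbabilityMeasure μ] :
    1 ≤ μ {x : GP (k + 1) | x ^ 4 = 1} + 2⁻¹ ^ k := by
  have hcov : (Set.univ : Set (GP (k + 1))) ⊆
      {x : GP (k + 1) | x ^ 4 = 1} ∪ ⋃ r : ℕ, ((rho (k + 1) r).ker : Set (GP (k + 1))) := by
    intro x _
    by_cases hx : ∃ r, rho (k + 1) r x = 1
    · right
      obtain ⟨r, hr⟩ := hx
      exact Set.mem_iUnion.mpr ⟨r, hr⟩
    · left
      push Not at hx
      show x ^ 4 = 1
      funext r
      exact pow_four_of_ne (k + 1) r (x r) (hx r)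
  have hterm : ∀ r : ℕ, μ ((rho (k + 1) r).ker : Set (GP (k + 1))) ≤ 2⁻¹ ^ k * 2⁻¹ ^ (r + 1) := by
    intro r
    have := ker_bound (k + 1) μ r
    rw [measure_univ] at this
    rw [← pow_add, ← ENNReal.inv_pow]
    rw [ENNReal.le_inv_iff_mul_le]
    have e : k + (r + 1) = k + 1 + r := by ring
    rw [e]
    exact this
  have hsum : ∑' r : ℕ, (2⁻¹ : ENNReal) ^ k * (2⁻¹ : ENNReal) ^ (r + 1) = 2⁻¹ ^ k := by
    rw [ENNReal.tsum_mul_left]
    have : ∀ r : ℕ, (2⁻¹ : ENNReal) ^ (r + 1) = 2⁻¹ * 2⁻¹ ^ r := by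
      intro r; rw [pow_succ, mul_comm]
    rw [tsum_congr this, ENNReal.tsum_mul_left, ENNReal.tsum_geometric, ENNReal.one_sub_inv_two,
      inv_inv, ENNReal.inv_mul_cancel (by norm_num) (by norm_num), mul_one]
  calc (1 : ENNReal) = μ Set.univ := measure_univ.symm
    _ ≤ μ ({x : GP (k + 1) | x ^ 4 = 1} ∪ ⋃ r : ℕ, ((rho (k + 1) r).ker : Set (GP (k + 1)))) :=
          measure_mono hcov
    _ ≤ μ {x : GP (k + 1) | x ^ 4 = 1} + μ (⋃ r : ℕ, ((rho (k + 1) r).ker : Set (GP (k + 1)))) :=
          measure_union_le _ _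
    _ ≤ μ {x : GP (k + 1) | x ^ 4 = 1} + ∑' r : ℕ, μ ((rho (k + 1) r).ker : Set (GP (k + 1))) := by
          gcongr; exact measure_iUnion_le _
    _ ≤ μ {x : GP (k + 1) | x ^ 4 = 1} + ∑' r : ℕ, (2⁻¹ : ENNReal) ^ k * 2⁻¹ ^ (r + 1) := by
          gcongr with r
          exact hterm r
    _ = _ := by rw [hsum]

/-- no coset of an open subgroup inside `x ^ 4 = 1` -/
theorem no_coset (k : ℕ) (H : Subgroup (GP k)) (hH : IsOpen (H : Set (GP k))) (t : GP k) :
    ∃ h ∈ H, (t * h) ^ 4 ≠ 1 := by
  classical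
  have h1 : (H : Set (GP k)) ∈ nhds (1 : GP k) := hH.mem_nhds H.one_mem
  rw [nhds_pi, Filter.mem_pi] at h1
  obtain ⟨I, hI, u, hu, hsub⟩ := h1
  obtain ⟨r, hr⟩ := hI.infinite_compl.nonempty
  obtain ⟨w, hw, hw4⟩ := GG_bad (H := HH k r)
  let b : Gf k r := ⟨w, hw⟩
  let h : GP k := Function.update 1 r ((t r)⁻¹ * b)
  have hmem : h ∈ H := by
    apply hsub
    intro i hi
    have hne : i ≠ r := fun e => hr (e ▸ hi)
    show Function.update (1 : GP k) r ((t r)⁻¹ * b) i ∈ u i
    rw [Function.update_of_ne hne]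
    exact mem_of_mem_nhds (hu i)
  refine ⟨h, hmem, fun h4' => ?_⟩
  have h4 := congrFun h4' r
  have e : ((t * h) ^ 4) r = b ^ 4 := by
    show (t r * Function.update (1 : GP k) r ((t r)⁻¹ * b) r) ^ 4 = b ^ 4
    rw [Function.update_self, mul_inv_cancel_left]
  rw [e] at h4
  apply hw4
  have := congrArg Subtype.val h4
  rwa [Subgroup.coe_pow] at this

/-- in a group of exponent `8` the equations `x ^ n = 1`, `n = 4 mod 8`, are all the same -/
theorem pow_iff {G : Type} [Group G] (h8 : ∀ x : G, x ^ 8 = 1) (n : ℕ) (hn : n % 8 = 4) (x : G) :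
    x ^ n = 1 ↔ x ^ 4 = 1 := by
  have : x ^ n = x ^ 4 := by
    conv_lhs => rw [← Nat.div_add_mod n 8, hn, pow_add, pow_mul, h8, one_pow, one_mul]
  rw [this]

end Pool.Agent.INS.Four
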